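import Pool.Agent.Helper18.GLR.Base

/-! Two-path lemma (Theorem R, graph part of MP_7cf8d2_co). -/

namespace GLR

set_option linter.unusedSectionVars false

variable {V E : Type*} [Fintype V] [DecidableEq V] [DecidableEq E]

namespace Gph

theorem cut_inter_union (G : Gph V E) (F : Finset E) (A B : Finset V) :
    (G.cut F (A ∩ B)).card + (G.cut F (A ∪ B)).card ≤
      (G.cut F A).card + (G.cut F B).card := by
  classical
  unfold cut
  simp only [Finset.card_filter]
  rw [← Finset.sum_add_distrib, ← Finset.sum_add_distrib]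
  refine Finset.sum_le_sum (fun e _ => ?_)
  simp only [Finset.mem_inter, Finset.mem_union]
  by_cases h1 : G.s e ∈ A <;> by_cases h2 : G.t e ∈ A <;> by_cases h3 : G.s e ∈ B <;>
    by_cases h4 : G.t e ∈ B <;> simp [h1, h2, h3, h4]

/-- every cut separating `a` from `b` has at least two edges of `F` -/
def Sep (G : Gph V E) (F : Finset E) (a b : V) : Prop :=
  ∀ W : Finset V, a ∈ W → b ∉ W → 2 ≤ (G.cut F W).card

/-- tight sets -/
def Tight (G : Gph V E) (F : Finset E) (a b : V) (W : Finset V) : Prop :=
  a ∈ W ∧ b ∉ W ∧ (G.cut F W).card = 2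

theorem tight_inter (G : Gph V E) {F : Finset E} {a b : V} (hS : G.Sep F a b)
    {A B : Finset V} (hA : G.Tight F a b A) (hB : G.Tight F a b B) :
    G.Tight F a b (A ∩ B) := by
  obtain ⟨a1, a2, a3⟩ := hA
  obtain ⟨b1, b2, b3⟩ := hB
  have h := G.cut_inter_union F A B
  have h1 := hS (A ∩ B) (by simp [a1, b1]) (by simp [a2])
  have h2 := hS (A ∪ B) (by simp [a1]) (by simp [a2, b2])
  exact ⟨by simp [a1, b1], by simp [a2], by omega⟩

theorem tight_union (G : Gph V E) {F : Finset E} {a b : V} (hS : G.Sep F a b)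
    {A B : Finset V} (hA : G.Tight F a b A) (hB : G.Tight F a b B) :
    G.Tight F a b (A ∪ B) := by
  obtain ⟨a1, a2, a3⟩ := hA
  obtain ⟨b1, b2, b3⟩ := hB
  have h := G.cut_inter_union F A B
  have h1 := hS (A ∩ B) (by simp [a1, b1]) (by simp [a2])
  have h2 := hS (A ∪ B) (by simp [a1]) (by simp [a2, b2])
  exact ⟨by simp [a1], by simp [a2, b2], by omega⟩

/-- in a minimal separating-connected edge set every edge is in a tight cut -/
theorem edge_tight (G : Gph V E) {H : Finset E} {a b : V} (hS : G.Sep H a b)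
    (hmin : ∀ e ∈ H, ¬ G.Sep (H.erase e) a b) {e : E} (he : e ∈ H) :
    ∃ W, G.Tight H a b W ∧ e ∈ G.cut H W := by
  have h := hmin e he
  unfold Sep at h
  push Not at h
  obtain ⟨W, h1, h2, h3⟩ := h
  have h4 := hS W h1 h2
  have h5 : G.cut (H.erase e) W = (G.cut H W).erase e := by
    ext x
    simp only [cut, Finset.mem_filter, Finset.mem_erase]
    tauto
  rw [h5] at h3
  by_cases h6 : e ∈ G.cut H W
  · rw [Finset.card_erase_of_mem h6] at h3
    exact ⟨W, ⟨h1, h2, by omega⟩, h6⟩
  · rw [Finset.erase_eq_of_notMem h6] at h3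
    omega

/-- smallest tight set containing `v` -/
theorem exists_small (G : Gph V E) {H : Finset E} {a b : V} (hS : G.Sep H a b) (v : V)
    (hex : ∃ W, G.Tight H a b W ∧ v ∈ W) :
    ∃ I, G.Tight H a b I ∧ v ∈ I ∧ ∀ W, G.Tight H a b W → v ∈ W → I ⊆ W := by
  classical
  let S : Finset (Finset V) := Finset.univ.filter (fun W => G.Tight H a b W ∧ v ∈ W)
  have hne : S.Nonempty := by
    obtain ⟨W, h⟩ := hex
    exact ⟨W, by simp [S, h]⟩
  obtain ⟨I, hI, hmin⟩ := Finset.exists_min_image S Finset.card hne
  have hI' : G.Tight H a b I ∧ v ∈ I := by simpa [S] using hI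
  refine ⟨I, hI'.1, hI'.2, fun W hW hv => ?_⟩
  have h1 : I ∩ W ∈ S := by
    simp only [S, Finset.mem_filter, Finset.mem_univ, true_and, Finset.mem_inter]
    exact ⟨G.tight_inter hS hI'.1 hW, hI'.2, hv⟩
  have h2 := hmin _ h1
  have h3 : I ∩ W = I := Finset.eq_of_subset_of_card_le Finset.inter_subset_left h2
  exact Finset.inter_eq_left.mp h3

/-- largest tight set avoiding `v` -/
theorem exists_large (G : Gph V E) {H : Finset E} {a b : V} (hS : G.Sep H a b) (v : V)
    (hex : ∃ W, G.Tight H a b W ∧ v ∉ W) :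
    ∃ I, G.Tight H a b I ∧ v ∉ I ∧ ∀ W, G.Tight H a b W → v ∉ W → W ⊆ I := by
  classical
  let S : Finset (Finset V) := Finset.univ.filter (fun W => G.Tight H a b W ∧ v ∉ W)
  have hne : S.Nonempty := by
    obtain ⟨W, h⟩ := hex
    exact ⟨W, by simp [S, h]⟩
  obtain ⟨I, hI, hmin⟩ := Finset.exists_max_image S Finset.card hne
  have hI' : G.Tight H a b I ∧ v ∉ I := by simpa [S] using hI
  refine ⟨I, hI'.1, hI'.2, fun W hW hv => ?_⟩
  have h1 : I ∪ W ∈ S := by
    simp only [S, Finset.mem_filter, Finset.mem_univ, true_and, Finset.mem_union]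
    refine ⟨G.tight_union hS hI'.1 hW, ?_⟩
    rintro (h | h)
    · exact hI'.2 h
    · exact hv h
  have h2 := hmin _ h1
  have h3 : I = I ∪ W := Finset.eq_of_subset_of_card_le Finset.subset_union_left h2
  exact Finset.union_eq_left.mp h3.symm

/-- the star of `v` -/
theorem card_cut_erase (G : Gph V E) (H : Finset E) (I : Finset V) (v : V) (hv : v ∈ I) :
    (G.cut H (I.erase v)).card + (G.cut H {v} ∩ G.cut H I).card =
      (G.cut H I).card + (G.cut H {v} \ G.cut H I).card := by
  classical
  have h1 : G.cut H (I.erase v) = (G.cut H I \ G.cut H {v}) ∪ (G.cut H {v} \ G.cut H I) := by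
    ext e
    simp only [cut, Finset.mem_filter, Finset.mem_erase, Finset.mem_union, Finset.mem_sdiff,
      Finset.mem_singleton]
    by_cases h1 : G.s e = v <;> by_cases h2 : G.t e = v <;> simp [h1, h2, hv] <;> tauto
  rw [h1, Finset.card_union_of_disjoint
    (Finset.disjoint_left.mpr (fun x hx hx' => (Finset.mem_sdiff.mp hx).2
      (Finset.mem_sdiff.mp hx').1))]
  have h2 := Finset.card_sdiff_add_card_inter (G.cut H I) (G.cut H {v})
  rw [Finset.inter_comm] at h2
  omega

theorem card_cut_insert (G : Gph V E) (H : Finset E) (I : Finset V) (v : V) (hv : v ∉ I) :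
    (G.cut H (insert v I)).card + (G.cut H {v} ∩ G.cut H I).card =
      (G.cut H I).card + (G.cut H {v} \ G.cut H I).card := by
  classical
  have h1 : G.cut H (insert v I) = (G.cut H I \ G.cut H {v}) ∪ (G.cut H {v} \ G.cut H I) := by
    ext e
    simp only [cut, Finset.mem_filter, Finset.mem_insert, Finset.mem_union, Finset.mem_sdiff,
      Finset.mem_singleton]
    by_cases h1 : G.s e = v <;> by_cases h2 : G.t e = v <;> simp [h1, h2, hv] <;> tauto
  rw [h1, Finset.card_union_of_disjoint
    (Finset.disjoint_left.mpr (fun x hx hx' => (Finset.mem_sdiff.mp hx).2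
      (Finset.mem_sdiff.mp hx').1))]
  have h2 := Finset.card_sdiff_add_card_inter (G.cut H I) (G.cut H {v})
  rw [Finset.inter_comm] at h2
  omega

/-- degrees in a minimal `Sep` set -/
theorem deg_of_min (G : Gph V E) {H : Finset E} {a b : V} (hS : G.Sep H a b)
    (hmin : ∀ e ∈ H, ¬ G.Sep (H.erase e) a b) (v : V) :
    (v = a → (G.cut H {v}).card ≤ 2) ∧ (v = b → (G.cut H {v}).card ≤ 2) ∧
      (v ≠ a → v ≠ b → Even (G.cut H {v}).card) := by
  classical
  -- description of the edges at `v`
  have hedge : ∀ e ∈ G.cut H {v}, ∃ W, G.Tight H a b W ∧ e ∈ G.cut H W := by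
    intro e he
    exact G.edge_tight hS hmin (Finset.mem_filter.mp he).1
  have hin : ∀ I, G.Tight H a b I → v ∈ I → (∀ W, G.Tight H a b W → v ∈ W → I ⊆ W) →
      ∀ e ∈ G.cut H {v}, ∀ W, G.Tight H a b W → v ∈ W → e ∈ G.cut H W → e ∈ G.cut H I := by
    intro I hI hvI hmn e he W hW hvW heW
    have hsub := hmn W hW hvW
    simp only [cut, Finset.mem_filter, Finset.mem_singleton] at he heW ⊢
    refine ⟨he.1, fun h => ?_⟩
    obtain ⟨_, h1⟩ := he
    obtain ⟨_, h2⟩ := heW
    by_cases h3 : G.s e = v
    · have h4 : G.t e ∈ I := h.mp (by rw [h3]; exact hvI)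
      exact h2 ⟨fun _ => hsub h4, fun _ => by rw [h3]; exact hvW⟩
    · have h5 : G.t e = v := by tauto
      have h4 : G.s e ∈ I := h.mpr (by rw [h5]; exact hvI)
      exact h2 ⟨fun _ => by rw [h5]; exact hvW, fun _ => hsub h4⟩
  have hout : ∀ I, G.Tight H a b I → v ∉ I → (∀ W, G.Tight H a b W → v ∉ W → W ⊆ I) →
      ∀ e ∈ G.cut H {v}, ∀ W, G.Tight H a b W → v ∉ W → e ∈ G.cut H W → e ∈ G.cut H I := by
    intro I hI hvI hmn e he W hW hvW heW
    have hsub := hmn W hW hvW
    simp only [cut, Finset.mem_filter, Finset.mem_singleton] at he heW ⊢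
    refine ⟨he.1, fun h => ?_⟩
    obtain ⟨_, h1⟩ := he
    obtain ⟨_, h2⟩ := heW
    by_cases h3 : G.s e = v
    · have h6 : G.s e ∉ W := by rw [h3]; exact hvW
      have h7 : G.t e ∈ W := by tauto
      have h8 := h.mpr (hsub h7)
      rw [h3] at h8
      exact hvI h8
    · have h5 : G.t e = v := by tauto
      have h6 : G.t e ∉ W := by rw [h5]; exact hvW
      have h7 : G.s e ∈ W := by tauto
      have h8 := h.mp (hsub h7)
      rw [h5] at h8
      exact hvI h8
  refine ⟨fun hva => ?_, fun hvb => ?_, fun hva hvb => ?_⟩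
  · -- `v = a`
    by_cases hex : ∃ W, G.Tight H a b W ∧ v ∈ W
    · obtain ⟨I, hI, hvI, hmn⟩ := G.exists_small hS v hex
      have : G.cut H {v} ⊆ G.cut H I := by
        intro e he
        obtain ⟨W, hW, heW⟩ := hedge e he
        exact hin I hI hvI hmn e he W hW (by rw [hva]; exact hW.1) heW
      have := Finset.card_le_card this
      rw [hI.2.2] at this
      exact this
    · have : G.cut H {v} = ∅ := by
        rw [Finset.eq_empty_iff_forall_notMem]
        intro e he
        obtain ⟨W, hW, heW⟩ := hedge e he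
        exact hex ⟨W, hW, by rw [hva]; exact hW.1⟩
      rw [this]; simp
  · by_cases hex : ∃ W, G.Tight H a b W ∧ v ∉ W
    · obtain ⟨I, hI, hvI, hmn⟩ := G.exists_large hS v hex
      have : G.cut H {v} ⊆ G.cut H I := by
        intro e he
        obtain ⟨W, hW, heW⟩ := hedge e he
        exact hout I hI hvI hmn e he W hW (by rw [hvb]; exact hW.2.1) heW
      have := Finset.card_le_card this
      rw [hI.2.2] at this
      exact this
    · have : G.cut H {v} = ∅ := by
        rw [Finset.eq_empty_iff_forall_notMem]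
        intro e he
        obtain ⟨W, hW, heW⟩ := hedge e he
        exact hex ⟨W, hW, by rw [hvb]; exact hW.2.1⟩
      rw [this]; simp
  · -- the general vertex
    have hI1 : ∀ I, G.Tight H a b I → v ∈ I →
        2 * (G.cut H {v} ∩ G.cut H I).card ≤ (G.cut H {v}).card := by
      intro I hI hvI
      have h1 := G.card_cut_erase H I v hvI
      have h2 := hS (I.erase v) (Finset.mem_erase.mpr ⟨Ne.symm hva, hI.1⟩)
        (fun h => hI.2.1 (Finset.mem_of_mem_erase h))
      have h3 := Finset.card_sdiff_add_card_inter (G.cut H {v}) (G.cut H I)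
      have h4 := hI.2.2
      omega
    have hI2 : ∀ I, G.Tight H a b I → v ∉ I →
        2 * (G.cut H {v} ∩ G.cut H I).card ≤ (G.cut H {v}).card := by
      intro I hI hvI
      have h1 := G.card_cut_insert H I v hvI
      have h2 := hS (insert v I) (Finset.mem_insert_of_mem hI.1)
        (by
          intro h
          rcases Finset.mem_insert.mp h with h | h
          · exact hvb h.symm
          · exact hI.2.1 h)
      have h3 := Finset.card_sdiff_add_card_inter (G.cut H {v}) (G.cut H I)
      have h4 := hI.2.2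
      omega
    by_cases hex1 : ∃ W, G.Tight H a b W ∧ v ∈ W
    · obtain ⟨I, hI, hvI, hmnI⟩ := G.exists_small hS v hex1
      by_cases hex2 : ∃ W, G.Tight H a b W ∧ v ∉ W
      · obtain ⟨J, hJ, hvJ, hmnJ⟩ := G.exists_large hS v hex2
        have hcov : G.cut H {v} ⊆ (G.cut H {v} ∩ G.cut H I) ∪ (G.cut H {v} ∩ G.cut H J) := by
          intro e he
          obtain ⟨W, hW, heW⟩ := hedge e he
          by_cases hvW : v ∈ W
          · exact Finset.mem_union_left _ (Finset.mem_inter.mpr
              ⟨he, hin I hI hvI hmnI e he W hW hvW heW⟩)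
          · exact Finset.mem_union_right _ (Finset.mem_inter.mpr
              ⟨he, hout J hJ hvJ hmnJ e he W hW hvW heW⟩)
        have h1 := (Finset.card_le_card hcov).trans (Finset.card_union_le _ _)
        have h2 := hI1 I hI hvI
        have h3 := hI2 J hJ hvJ
        exact ⟨(G.cut H {v} ∩ G.cut H I).card, by omega⟩
      · have hcov : G.cut H {v} ⊆ (G.cut H {v} ∩ G.cut H I) := by
          intro e he
          obtain ⟨W, hW, heW⟩ := hedge e he
          have hvW : v ∈ W := by
            by_contra hvW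
            exact hex2 ⟨W, hW, hvW⟩
          exact Finset.mem_inter.mpr ⟨he, hin I hI hvI hmnI e he W hW hvW heW⟩
        have h1 := Finset.card_le_card hcov
        have h2 := hI1 I hI hvI
        exact ⟨0, by omega⟩
    · by_cases hex2 : ∃ W, G.Tight H a b W ∧ v ∉ W
      · obtain ⟨J, hJ, hvJ, hmnJ⟩ := G.exists_large hS v hex2
        have hcov : G.cut H {v} ⊆ (G.cut H {v} ∩ G.cut H J) := by
          intro e he
          obtain ⟨W, hW, heW⟩ := hedge e he
          have hvW : v ∉ W := fun hvW => hex1 ⟨W, hW, hvW⟩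
          exact Finset.mem_inter.mpr ⟨he, hout J hJ hvJ hmnJ e he W hW hvW heW⟩
        have h1 := Finset.card_le_card hcov
        have h3 := hI2 J hJ hvJ
        exact ⟨0, by omega⟩
      · have : G.cut H {v} = ∅ := by
          rw [Finset.eq_empty_iff_forall_notMem]
          intro e he
          obtain ⟨W, hW, heW⟩ := hedge e he
          by_cases hvW : v ∈ W
          · exact hex1 ⟨W, hW, hvW⟩
          · exact hex2 ⟨W, hW, hvW⟩
        rw [this]; simp

theorem cut_univ_sdiff (G : Gph V E) (X : Finset E) (W : Finset V) :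
    G.cut X (Finset.univ \ W) = G.cut X W := by
  ext e
  simp only [cut, Finset.mem_filter, Finset.mem_sdiff, Finset.mem_univ, true_and]
  tauto

/-- **Two-path lemma**: in a graph of maximum degree at most 3 in which every cut between `a` and
`b` has at least two edges there is a circuit through `a` and `b`. -/
theorem twoPath (G : Gph V E) (F : Finset E) (a b : V) (hab : a ≠ b)
    (hdeg : ∀ v, (G.cut F {v}).card ≤ 3) (hS : G.Sep F a b) :
    ∃ X ⊆ F, X.Nonempty ∧ G.Ev X ∧ (∀ Y ⊆ X, G.Ev Y → Y.Nonempty → Y = X) ∧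
      (G.cut X {a}).card = 2 ∧ (G.cut X {b}).card = 2 := by
  classical
  obtain ⟨H, hH, hmin⟩ := Finset.exists_min_image
    (F.powerset.filter (fun H => G.Sep H a b)) Finset.card
    ⟨F, by simp [hS]⟩
  simp only [Finset.mem_filter, Finset.mem_powerset] at hH hmin
  obtain ⟨hHF, hSH⟩ := hH
  have hmin' : ∀ Y ⊆ H, G.Sep Y a b → Y = H := by
    intro Y hY hSY
    exact Finset.eq_of_subset_of_card_le hY (hmin Y ⟨hY.trans hHF, hSY⟩)
  have hmin1 : ∀ e ∈ H, ¬ G.Sep (H.erase e) a b := by
    intro e he h
    have := hmin' _ (Finset.erase_subset e H) h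
    have h2 : e ∈ H.erase e := by rw [this]; exact he
    simp at h2
  have hdegH : ∀ v, (G.cut H {v}).card ≤ 3 := fun v =>
    (Finset.card_le_card (Finset.filter_subset_filter _ hHF)).trans (hdeg v)
  have ha2 : (G.cut H {a}).card = 2 := by
    have h1 := (G.deg_of_min hSH hmin1 a).1 rfl
    have h2 := hSH {a} (Finset.mem_singleton_self a) (by simpa using hab.symm)
    omega
  have hb2 : (G.cut H {b}).card = 2 := by
    have h1 := (G.deg_of_min hSH hmin1 b).2.1 rfl
    have h2 := hSH (Finset.univ \ {b}) (by simpa using hab) (by simp)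
    rw [G.cut_univ_sdiff] at h2
    omega
  have hev : G.Ev H := by
    intro v
    by_cases h1 : v = a
    · rw [h1, ha2]; decide
    by_cases h2 : v = b
    · rw [h2, hb2]; decide
    exact (G.deg_of_min hSH hmin1 v).2.2 h1 h2
  have hle2 : ∀ v, (G.cut H {v}).card ≤ 2 := by
    intro v
    have h1 := hdegH v
    obtain ⟨k, hk⟩ := hev v
    omega
  have hne : H.Nonempty := by
    have h1 : (G.cut H {a}).Nonempty := by
      rw [← Finset.card_pos, ha2]; decide
    obtain ⟨e, he⟩ := h1
    exact ⟨e, (Finset.mem_filter.mp he).1⟩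
  have hloop : ∀ e ∈ H, G.s e ≠ G.t e := by
    intro e he h
    obtain ⟨W, _, hW⟩ := G.edge_tight hSH hmin1 he
    simp only [cut, Finset.mem_filter] at hW
    exact hW.2 (by rw [h])
  refine ⟨H, hHF, hne, hev, ?_, ha2, hb2⟩
  intro Y hYH hYev hYne
  by_contra hYne'
  -- the complement
  have hZne : (H \ Y).Nonempty := by
    rw [Finset.sdiff_nonempty]
    intro h
    exact hYne' (Finset.Subset.antisymm hYH h)
  let VY : Finset V := Finset.univ.filter (fun v => (G.cut Y {v}).Nonempty)
  have hmemVY : ∀ v, v ∈ VY ↔ (G.cut Y {v}).Nonempty := by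
    intro v; simp [VY]
  have hYends : ∀ e ∈ Y, G.s e ∈ VY ∧ G.t e ∈ VY := by
    intro e he
    have h1 := hloop e (hYH he)
    constructor
    · rw [hmemVY]
      exact ⟨e, by simp [cut, he, Ne.symm h1]⟩
    · rw [hmemVY]
      exact ⟨e, by simp [cut, he, h1]⟩
  have hdisj : ∀ v, v ∈ VY → ∀ e ∈ G.cut H {v}, e ∈ Y := by
    intro v hv e he
    by_contra heY
    rw [hmemVY] at hv
    have h1 : 2 ≤ (G.cut Y {v}).card := by
      have := Finset.card_pos.mpr hv
      obtain ⟨k, hk⟩ := hYev v
      omega
    have h2 : insert e (G.cut Y {v}) ⊆ G.cut H {v} := by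
      intro x hx
      rcases Finset.mem_insert.mp hx with h | h
      · rw [h]; exact he
      · exact (Finset.filter_subset_filter _ hYH) h
    have h3 := Finset.card_le_card h2
    have h5 : e ∉ G.cut Y {v} := fun h => heY (Finset.mem_filter.mp h).1
    rw [Finset.card_insert_of_notMem h5] at h3
    have := hle2 v
    omega
  have hZends : ∀ e ∈ H, e ∉ Y → G.s e ∉ VY ∧ G.t e ∉ VY := by
    intro e he heY
    have h1 := hloop e he
    constructor
    · intro h
      exact heY (hdisj _ h e (by simp [cut, he, Ne.symm h1]))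
    · intro h
      exact heY (hdisj _ h e (by simp [cut, he, h1]))
  have hcutVY : G.cut H VY = ∅ := by
    rw [Finset.eq_empty_iff_forall_notMem]
    intro e he
    simp only [cut, Finset.mem_filter] at he
    by_cases heY : e ∈ Y
    · have := hYends e heY
      tauto
    · have := hZends e he.1 heY
      tauto
  by_cases haV : a ∈ VY
  · have hbV : b ∈ VY := by
      by_contra hbV
      have := hSH VY haV hbV
      rw [hcutVY] at this
      simp at this
    apply hYne'
    apply hmin' Y hYH
    intro W haW hbW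
    have h1 := hSH (W ∩ VY) (Finset.mem_inter.mpr ⟨haW, haV⟩)
      (fun h => hbW (Finset.mem_inter.mp h).1)
    have h2 : G.cut H (W ∩ VY) ⊆ G.cut Y W := by
      intro e he
      simp only [cut, Finset.mem_filter, Finset.mem_inter] at he ⊢
      by_cases heY : e ∈ Y
      · have := hYends e heY
        exact ⟨heY, by tauto⟩
      · have := hZends e he.1 heY
        tauto
    exact h1.trans (Finset.card_le_card h2)
  · have hbV : b ∉ VY := by
      intro hbV
      have := hSH (Finset.univ \ VY) (by simp [haV]) (by simp [hbV])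
      rw [G.cut_univ_sdiff, hcutVY] at this
      simp at this
    have h3 : H \ Y = H := by
      apply hmin' (H \ Y) Finset.sdiff_subset
      intro W haW hbW
      have h1 := hSH (W \ VY) (Finset.mem_sdiff.mpr ⟨haW, haV⟩)
        (fun h => hbW (Finset.mem_sdiff.mp h).1)
      have h2 : G.cut H (W \ VY) ⊆ G.cut (H \ Y) W := by
        intro e he
        simp only [cut, Finset.mem_filter, Finset.mem_sdiff] at he ⊢
        by_cases heY : e ∈ Y
        · have := hYends e heY
          tauto
        · have := hZends e he.1 heY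
          exact ⟨⟨he.1, heY⟩, by tauto⟩
      exact h1.trans (Finset.card_le_card h2)
    obtain ⟨e, he⟩ := hYne
    have h4 : e ∈ H \ Y := by rw [h3]; exact hYH he
    exact (Finset.mem_sdiff.mp h4).2 he

end Gph

end GLR
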