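import Pool.Agent.Helper18.GLR.Tools
import Pool.Agent.Helper12.GLR.TwoPath

/-! Routing a circuit of `G/U` through the 3-cut side `U` (Theorem R). -/

namespace GLR

open Finset

set_option linter.unusedSectionVars false

variable {V E : Type*} [Fintype V] [DecidableEq V] [DecidableEq E]

/-- routing a circuit of the contracted graph through `U`, through any prescribed vertex `t0` -/
theorem Gph.route {G : Gph V E} (hG : G.Cubic)
    (hcon : ∀ W ⊆ G.A, W.Nonempty → W ≠ G.A → 3 ≤ (G.cut G.F W).card) {r : V}
    {U : Finset V} (hU : U ⊆ G.A) (hrA : r ∈ G.A) (hr : r ∉ U)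
    (hc : (G.cut G.F U).card = 3) {u0 : V} (hu0 : u0 ∈ U) {t0 : V} (ht0 : t0 ∈ U)
    {X : Finset E} (hX : (G.push fun v => if v ∈ U then u0 else v).Circ X)
    (hXU : (G.cut X U).Nonempty) :
    ∃ P ⊆ G.ins G.F U, G.Circ (X ∪ P) ∧ (G.cut (X ∪ P) {t0}).Nonempty := by
  classical
  set ρ : V → V := fun v => if v ∈ U then u0 else v with hρ
  have hρU : ∀ v, v ∈ U → ρ v = u0 := fun v hv => by simp [hρ, hv]
  have hρn : ∀ v, v ∉ U → ρ v = v := fun v hv => by simp [hρ, hv]
  -- preimages
  have hpre1 : (univ.filter fun v => ρ v ∈ ({u0} : Finset V)) = U := by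
    ext v
    simp only [mem_filter, mem_univ, true_and, mem_singleton]
    constructor
    · intro h
      by_contra hv
      rw [hρn v hv] at h
      exact hv (h ▸ hu0)
    · exact hρU v
  have hpre2 : ∀ w, w ∉ U → (univ.filter fun v => ρ v ∈ ({w} : Finset V)) = {w} := by
    intro w hw
    ext v
    simp only [mem_filter, mem_univ, true_and, mem_singleton]
    constructor
    · intro h
      by_cases hv : v ∈ U
      · rw [hρU v hv] at h
        exact absurd (h ▸ hu0) hw
      · rw [hρn v hv] at h
        exact h
    · intro h
      rw [h]
      exact hρn w hw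
  have hpre3 : ∀ w, w ∈ U → w ≠ u0 → (univ.filter fun v => ρ v ∈ ({w} : Finset V)) = ∅ := by
    intro w hw hw0
    rw [filter_eq_empty_iff]
    intro v _ h
    rw [mem_singleton] at h
    by_cases hv : v ∈ U
    · rw [hρU v hv] at h
      exact hw0 h.symm
    · rw [hρn v hv] at h
      exact hv (h ▸ hw)
  -- edges of X
  have hXF : X ⊆ G.F := fun e he => (mem_filter.mp (hX.sub he)).1
  have hXin : ∀ e ∈ X, ¬ (G.s e ∈ U ∧ G.t e ∈ U) := by
    intro e he h
    have := (mem_filter.mp (hX.sub he)).2
    exact this (by show ρ (G.s e) = ρ (G.t e); rw [hρU _ h.1, hρU _ h.2])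
  have hcutX : (G.cut X U).card = 2 := by
    have h1 : Even (G.cut X U).card := by
      have := hX.ev u0
      rw [Gph.cut_push, hpre1] at this
      exact this
    have h2 := card_le_card (G.cut_mono hXF U)
    have h3 := card_pos.mpr hXU
    obtain ⟨k, hk⟩ := h1
    omega
  -- the second graph
  set ρ2 : V → V := fun v => if v ∈ U then v else r with hρ2
  have hρ2U : ∀ v, v ∈ U → ρ2 v = v := fun v hv => by simp [hρ2, hv]
  have hρ2n : ∀ v, v ∉ U → ρ2 v = r := fun v hv => by simp [hρ2, hv]
  set F2 : Finset E := G.ins G.F U ∪ G.cut X U with hF2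
  have hF2F : F2 ⊆ G.F := by
    intro e he
    rcases mem_union.mp he with h | h
    · exact G.ins_subset _ _ h
    · exact hXF (G.cut_subset _ _ h)
  have hpre4 : ∀ W : Finset V, r ∉ W → (univ.filter fun v => ρ2 v ∈ W) = W ∩ U := by
    intro W hW
    ext v
    simp only [mem_filter, mem_univ, true_and, mem_inter]
    by_cases hv : v ∈ U
    · rw [hρ2U v hv]; tauto
    · rw [hρ2n v hv]; tauto
  have hpre5 : (univ.filter fun v => ρ2 v ∈ ({r} : Finset V)) = univ \ U := by
    ext v
    simp only [mem_filter, mem_univ, true_and, mem_singleton, mem_sdiff]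
    by_cases hv : v ∈ U
    · rw [hρ2U v hv]
      constructor
      · intro h; exact absurd (h ▸ hv) hr
      · intro h; exact absurd hv h
    · rw [hρ2n v hv]; tauto
  have hF2U : G.cut F2 U = G.cut X U := by
    ext e
    simp only [hF2, Gph.mem_cut, mem_union, Gph.mem_ins]
    constructor
    · rintro ⟨h1, h2⟩
      rcases h1 with h1 | h1
      · exact absurd (by tauto) h2
      · exact ⟨h1.1, h2⟩
    · rintro ⟨h1, h2⟩
      exact ⟨Or.inr ⟨h1, h2⟩, h2⟩
  have htr : t0 ≠ r := fun h => hr (h ▸ ht0)
  have hdeg : ∀ v, ((G.push ρ2).cut F2 {v}).card ≤ 3 := by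
    intro v
    rw [Gph.cut_push]
    by_cases hv : v ∈ U
    · have hrv : r ∉ ({v} : Finset V) := by
        rw [mem_singleton]; intro h; exact hr (h ▸ hv)
      rw [hpre4 {v} hrv, singleton_inter_of_mem hv]
      have := card_le_card (G.cut_mono hF2F {v})
      rw [hG.deg v (hU hv)] at this
      exact this
    · by_cases hvr : v = r
      · rw [hvr, hpre5, Gph.cut_univ_sdiff, hF2U, hcutX]
        omega
      · have hrv : r ∉ ({v} : Finset V) := by
          rw [mem_singleton]; exact fun h => hvr h.symm
        rw [hpre4 {v} hrv, singleton_inter_of_notMem hv]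
        simp [Gph.cut]
  have hsep : (G.push ρ2).Sep F2 t0 r := by
    intro W h1 h2
    rw [Gph.cut_push, hpre4 W h2]
    have h3 : 3 ≤ (G.cut G.F (W ∩ U)).card := by
      apply hcon
      · exact inter_subset_right.trans hU
      · exact ⟨t0, mem_inter.mpr ⟨h1, ht0⟩⟩
      · intro h
        have := h ▸ hrA
        exact hr (mem_inter.mp this).2
    have h4 : G.cut G.F (W ∩ U) ⊆ G.cut F2 (W ∩ U) ∪ (G.cut G.F U \ G.cut X U) := by
      intro e he
      rw [Gph.mem_cut] at he
      simp only [mem_union, mem_sdiff, Gph.mem_cut, hF2, Gph.mem_ins, mem_inter] at he ⊢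
      tauto
    have h5 := (card_le_card h4).trans (card_union_le _ _)
    have h6 := card_sdiff_add_card_inter (G.cut G.F U) (G.cut X U)
    rw [inter_eq_right.mpr (G.cut_mono hXF U)] at h6
    omega
  obtain ⟨X2, hX2F, hX2ne, hX2ev, hX2min, hX2t, hX2r⟩ :=
    Gph.twoPath (G.push ρ2) F2 t0 r htr hdeg hsep
  have hX2cut : G.cut X2 U = G.cut X U := by
    apply eq_of_subset_of_card_le
    · rw [← hF2U]
      exact G.cut_mono hX2F U
    · rw [Gph.cut_push, hpre5, Gph.cut_univ_sdiff] at hX2r
      omega
  refine ⟨X2 \ G.cut X U, ?_, ?_, ?_⟩
  · intro e he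
    rw [mem_sdiff] at he
    rcases mem_union.mp (hX2F he.1) with h | h
    · exact h
    · exact absurd h he.2
  · have hX' : X ∪ (X2 \ G.cut X U) = X ∪ X2 := by
      ext e
      simp only [mem_union, mem_sdiff]
      constructor
      · tauto
      · rintro (h | h)
        · exact Or.inl h
        · by_cases h2 : e ∈ G.cut X U
          · exact Or.inl (G.cut_subset _ _ h2)
          · exact Or.inr ⟨h, h2⟩
    rw [hX']
    -- membership facts
    have hcutX2 : ∀ e, e ∈ X → (G.s e ∈ U ∨ G.t e ∈ U) → e ∈ X2 := by
      intro e he h
      have h1 : e ∈ G.cut X U := by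
        rw [Gph.mem_cut]
        have := hXin e he
        exact ⟨he, by tauto⟩
      rw [← hX2cut] at h1
      exact G.cut_subset _ _ h1
    have hX2in : ∀ e, e ∈ X2 → e ∉ X → (G.s e ∈ U ∧ G.t e ∈ U) := by
      intro e he h
      rcases mem_union.mp (hX2F he) with h1 | h1
      · exact (G.mem_ins.mp h1).2
      · exact absurd (G.cut_subset _ _ h1) h
    refine ⟨?_, ?_, ?_, ?_⟩
    · exact union_subset hXF (hX2F.trans hF2F)
    · exact hX.ne.mono subset_union_left
    · intro v
      by_cases hv : v ∈ U
      · have h1 : G.cut (X ∪ X2) {v} = G.cut X2 {v} := by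
          ext e
          simp only [Gph.mem_cut_singleton, mem_union]
          constructor
          · rintro ⟨h1, h2⟩
            refine ⟨?_, h2⟩
            rcases h1 with h1 | h1
            · apply hcutX2 e h1
              rcases h2 with h2 | h2
              · left; rw [h2.1]; exact hv
              · right; rw [h2.2]; exact hv
            · exact h1
          · rintro ⟨h1, h2⟩
            exact ⟨Or.inr h1, h2⟩
        rw [h1]
        have h2 := hX2ev v
        have hrv : r ∉ ({v} : Finset V) := by
          rw [mem_singleton]; intro h; exact hr (h ▸ hv)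
        rw [Gph.cut_push, hpre4 {v} hrv, singleton_inter_of_mem hv] at h2
        exact h2
      · have h1 : G.cut (X ∪ X2) {v} = G.cut X {v} := by
          ext e
          simp only [Gph.mem_cut_singleton, mem_union]
          constructor
          · rintro ⟨h1, h2⟩
            refine ⟨?_, h2⟩
            by_contra hne
            have h3 : e ∈ X2 := by tauto
            have h4 := hX2in e h3 hne
            rcases h2 with h2 | h2
            · rw [h2.1] at h4; exact hv h4.1
            · rw [h2.2] at h4; exact hv h4.2
          · rintro ⟨h1, h2⟩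
            exact ⟨Or.inl h1, h2⟩
        rw [h1]
        have h2 := hX.ev v
        rw [Gph.cut_push, hpre2 v hv] at h2
        exact h2
    · intro Y hY hYev hYne
      -- trace outside
      have hY1 : (Y ∩ X).Nonempty → Y ∩ X = X := by
        intro hne
        apply hX.min (Y ∩ X) inter_subset_right _ hne
        intro v
        rw [Gph.cut_push]
        by_cases hv : v ∈ U
        · by_cases hv0 : v = u0
          · rw [hv0, hpre1]
            have h1 : G.cut (Y ∩ X) U = G.cut Y U := by
              ext e
              simp only [Gph.mem_cut, mem_inter]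
              constructor
              · tauto
              · rintro ⟨h1, h2⟩
                refine ⟨⟨h1, ?_⟩, h2⟩
                by_contra hne
                have h3 : e ∈ X2 := by
                  rcases mem_union.mp (hY h1) with h | h
                  · exact absurd h hne
                  · exact h
                have h4 := hX2in e h3 hne
                tauto
            rw [h1]
            exact hYev.cut U
          · rw [hpre3 v hv hv0]
            simp [Gph.cut]
        · rw [hpre2 v hv]
          have h1 : G.cut (Y ∩ X) {v} = G.cut Y {v} := by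
            ext e
            simp only [Gph.mem_cut_singleton, mem_inter]
            constructor
            · tauto
            · rintro ⟨h1, h2⟩
              refine ⟨⟨h1, ?_⟩, h2⟩
              by_contra hne
              have h3 : e ∈ X2 := by
                rcases mem_union.mp (hY h1) with h | h
                · exact absurd h hne
                · exact h
              have h4 := hX2in e h3 hne
              rcases h2 with h2 | h2
              · rw [h2.1] at h4; exact hv h4.1
              · rw [h2.2] at h4; exact hv h4.2
          rw [h1]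
          exact hYev v
      have hY2 : (Y ∩ X2).Nonempty → Y ∩ X2 = X2 := by
        intro hne
        apply hX2min (Y ∩ X2) inter_subset_right _ hne
        intro v
        rw [Gph.cut_push]
        by_cases hv : v ∈ U
        · have hrv : r ∉ ({v} : Finset V) := by
            rw [mem_singleton]; intro h; exact hr (h ▸ hv)
          rw [hpre4 {v} hrv, singleton_inter_of_mem hv]
          have h1 : G.cut (Y ∩ X2) {v} = G.cut Y {v} := by
            ext e
            simp only [Gph.mem_cut_singleton, mem_inter]
            constructor
            · tauto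
            · rintro ⟨h1, h2⟩
              refine ⟨⟨h1, ?_⟩, h2⟩
              rcases mem_union.mp (hY h1) with h | h
              · apply hcutX2 e h
                rcases h2 with h2 | h2
                · left; rw [h2.1]; exact hv
                · right; rw [h2.2]; exact hv
              · exact h
          rw [h1]
          exact hYev v
        · by_cases hvr : v = r
          · rw [hvr, hpre5, Gph.cut_univ_sdiff]
            have h1 : G.cut (Y ∩ X2) U = G.cut Y U := by
              ext e
              simp only [Gph.mem_cut, mem_inter]
              constructor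
              · tauto
              · rintro ⟨h1, h2⟩
                refine ⟨⟨h1, ?_⟩, h2⟩
                rcases mem_union.mp (hY h1) with h | h
                · exact hcutX2 e h (by tauto)
                · exact h
            rw [h1]
            exact hYev.cut U
          · have hrv : r ∉ ({v} : Finset V) := by
              rw [mem_singleton]; exact fun h => hvr h.symm
            rw [hpre4 {v} hrv, singleton_inter_of_notMem hv]
            simp [Gph.cut]
      obtain ⟨e0, he0⟩ := hXU
      have he0X : e0 ∈ X := G.cut_subset _ _ he0
      have he0X2 : e0 ∈ X2 := by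
        rw [← hX2cut] at he0
        exact G.cut_subset _ _ he0
      have hYX : X ⊆ Y := by
        by_cases hne : (Y ∩ X).Nonempty
        · have := hY1 hne
          rw [← this]
          exact inter_subset_left
        · exfalso
          obtain ⟨y, hy⟩ := hYne
          have hyX : y ∉ X := fun h => hne ⟨y, mem_inter.mpr ⟨hy, h⟩⟩
          have hyX2 : y ∈ X2 := by
            rcases mem_union.mp (hY hy) with h | h
            · exact absurd h hyX
            · exact h
          have h1 := hY2 ⟨y, mem_inter.mpr ⟨hy, hyX2⟩⟩
          have h2 : e0 ∈ Y ∩ X2 := by rw [h1]; exact he0X2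
          exact hne ⟨e0, mem_inter.mpr ⟨(mem_inter.mp h2).1, he0X⟩⟩
      have hYX2 : X2 ⊆ Y := by
        have := hY2 ⟨e0, mem_inter.mpr ⟨hYX he0X, he0X2⟩⟩
        rw [← this]
        exact inter_subset_left
      exact Subset.antisymm hY (union_subset hYX hYX2)
  · have h1 : (G.cut X2 {t0}).Nonempty := by
      have hrv : r ∉ ({t0} : Finset V) := by
        rw [mem_singleton]; intro h; exact hr (h ▸ ht0)
      rw [Gph.cut_push, hpre4 {t0} hrv, singleton_inter_of_mem ht0] at hX2t
      rw [← card_pos]; omega
    apply h1.mono
    apply G.cut_mono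
    intro e he
    by_cases h2 : e ∈ G.cut X U
    · exact mem_union_left _ (G.cut_subset _ _ h2)
    · exact mem_union_right _ (mem_sdiff.mpr ⟨he, h2⟩)

end GLR
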