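import Pool.Agent.Helper12.GLR.Route

/-! Lifting a good circuit of `G/U` through the 3-cut side `U` (Theorem R). -/

namespace GLR

open Finset

set_option linter.unusedSectionVars false

variable {V E : Type*} [Fintype V] [DecidableEq V] [DecidableEq E]

private theorem aux1 (sU tU sY tY : Prop) (h : sU → tU → (sY ↔ tY))
    (h2 : ¬ ((sU ∧ sY) ↔ (tU ∧ tY))) :
    ¬ (sU ↔ tU) ∧ ((sU ∧ ¬ sY) ↔ (tU ∧ ¬ tY)) := by
  tauto

private theorem aux2 (sU tU sY tY : Prop) (h : sU → tU → (sY ↔ tY))
    (h2 : ¬ ((sU ∧ ¬ sY) ↔ (tU ∧ ¬ tY))) : ¬ (sU ↔ tU) := by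
  tauto

theorem sideLift {G : Gph V E} {r : V} {M : Finset E} (h : InR G r M) {U : Finset V}
    (hU : U ⊆ G.A) (hr : r ∉ U)
    (hc : (G.cut G.F U).card = 3) (hi : G.ins M U = ∅) (hm : (G.meet M U).card ≤ 1)
    {u0 : V} (hu0 : u0 ∈ U) {X : Finset E} {B : Finset V}
    (hg : Good (G.push fun v => if v ∈ U then u0 else v) r M X B) :
    ∃ X' B', Good G r M X' B' := by
  classical
  have hcirc := hg.circ
  have hBA := hg.BA
  have hrB := hg.rB
  have hcon := hg.con
  have hdis := hg.dis
  have hone := hg.one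
  have htwo := hg.two
  have hall := hg.all
  set ρ : V → V := fun v => if v ∈ U then u0 else v with hρ
  have hρU : ∀ v, v ∈ U → ρ v = u0 := fun v hv => by simp [hρ, hv]
  have hρn : ∀ v, v ∉ U → ρ v = v := fun v hv => by simp [hρ, hv]
  have hpre1 : (univ.filter fun v => ρ v ∈ ({u0} : Finset V)) = U := by
    ext v
    simp only [mem_filter, mem_univ, true_and, mem_singleton]
    constructor
    · intro h
      by_contra hv
      rw [hρn v hv] at h
      exact hv (h ▸ hu0)
    · exact hρU v
  have hpre2 : ∀ w, w ∉ U → (univ.filter fun v => ρ v ∈ ({w} : Finset V)) = {w} := by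
    intro w hw
    ext v
    simp only [mem_filter, mem_univ, true_and, mem_singleton]
    constructor
    · intro h
      by_cases hv : v ∈ U
      · rw [hρU v hv] at h
        exact absurd (h ▸ hu0) hw
      · rw [hρn v hv] at h
        exact h
    · intro h
      rw [h]
      exact hρn w hw
  have hpre3 : ∀ w, w ∈ U → w ≠ u0 → (univ.filter fun v => ρ v ∈ ({w} : Finset V)) = ∅ := by
    intro w hw hw0
    rw [filter_eq_empty_iff]
    intro v _ h
    rw [mem_singleton] at h
    by_cases hv : v ∈ U
    · rw [hρU v hv] at h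
      exact hw0 h.symm
    · rw [hρn v hv] at h
      exact hv (h ▸ hw)
  have hXF : X ⊆ G.F := fun e he => (mem_filter.mp (hcirc.sub he)).1
  have hXin : ∀ e ∈ X, ¬ (G.s e ∈ U ∧ G.t e ∈ U) := by
    intro e he h
    have := (mem_filter.mp (hcirc.sub he)).2
    exact this (by show ρ (G.s e) = ρ (G.t e); rw [hρU _ h.1, hρU _ h.2])
  have hXB : ∀ e ∈ X, ρ (G.s e) ∉ B ∧ ρ (G.t e) ∉ B := by
    intro e he
    constructor
    · intro h1
      have : e ∈ (G.push ρ).meet X B := by
        rw [Gph.mem_meet]
        exact ⟨he, Or.inl h1⟩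
      rw [hdis] at this
      simp at this
    · intro h1
      have : e ∈ (G.push ρ).meet X B := by
        rw [Gph.mem_meet]
        exact ⟨he, Or.inr h1⟩
      rw [hdis] at this
      simp at this
  -- the component
  set B' : Finset V := G.A.filter (fun v => ρ v ∈ B) with hB'
  have hmemB' : ∀ v, v ∈ B' ↔ v ∈ G.A ∧ ρ v ∈ B := by
    intro v; simp [hB']
  have hrB' : r ∈ B' := by
    rw [hmemB']
    exact ⟨h.rA, by rw [hρn r hr]; exact hrB⟩
  -- every element of `B` is the image of an element of `B'`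
  have hBimg : ∀ b ∈ B, ∃ a ∈ B', ρ a = b := by
    intro b hb
    have h1 := hBA hb
    obtain ⟨a, ha, hab⟩ := mem_image.mp h1
    exact ⟨a, (hmemB' a).mpr ⟨ha, by rw [hab]; exact hb⟩, hab⟩
  have hconB' : G.Conn G.F B' := by
    intro Y hY hYne hYne'
    -- case: `Y` cuts `U`
    by_cases hYU : (Y ∩ U).Nonempty ∧ ((B' ∩ U) \ Y).Nonempty
    · obtain ⟨⟨y, hy⟩, ⟨z, hz⟩⟩ := hYU
      rw [mem_inter] at hy
      rw [mem_sdiff, mem_inter] at hz
      have hUB' : U ⊆ B' := by
        intro v hv
        rw [hmemB']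
        have := (hmemB' y).mp (hY hy.1)
        rw [hρU y hy.2] at this
        exact ⟨hU hv, by rw [hρU v hv]; exact this.2⟩
      have h1 : 3 ≤ (G.cut G.F (U ∩ Y)).card := by
        apply h.con _ (inter_subset_left.trans hU) ⟨y, mem_inter.mpr ⟨hy.2, hy.1⟩⟩
        intro h2
        have := h2 ▸ h.rA
        exact hr (mem_inter.mp this).1
      have h2 : 3 ≤ (G.cut G.F (U \ Y)).card := by
        apply h.con _ (sdiff_subset.trans hU) ⟨z, mem_sdiff.mpr ⟨hz.1.2, hz.2⟩⟩
        intro h2
        have := h2 ▸ h.rA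
        exact hr (mem_sdiff.mp this).1
      -- an edge between
      by_contra hno
      rw [not_nonempty_iff_eq_empty] at hno
      have hno' : ∀ e ∈ G.F, G.s e ∈ U → G.t e ∈ U → (G.s e ∈ Y ↔ G.t e ∈ Y) := by
        intro e he hs ht
        by_contra hc'
        have : e ∈ G.cut (G.ins G.F B') Y := by
          rw [Gph.mem_cut, Gph.mem_ins]
          exact ⟨⟨he, hUB' hs, hUB' ht⟩, hc'⟩
        rw [hno] at this
        simp at this
      have h3 : G.cut G.F (U ∩ Y) ⊆ G.cut G.F U \ G.cut G.F (U \ Y) := by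
        intro e he
        rw [Gph.mem_cut] at he
        rw [mem_sdiff, Gph.mem_cut, Gph.mem_cut]
        simp only [mem_inter, mem_sdiff] at he ⊢
        have h7 := aux1 _ _ _ _ (hno' e he.1) he.2
        exact ⟨⟨he.1, h7.1⟩, fun h8 => h8.2 h7.2⟩
      have h4 : G.cut G.F (U \ Y) ⊆ G.cut G.F U := by
        intro e he
        rw [Gph.mem_cut] at he
        rw [Gph.mem_cut]
        simp only [mem_sdiff] at he ⊢
        exact ⟨he.1, aux2 _ _ _ _ (hno' e he.1) he.2⟩
      have h5 := card_le_card h3
      have h6 := card_sdiff_add_card_inter (G.cut G.F U) (G.cut G.F (U \ Y))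
      rw [inter_eq_right.mpr h4] at h6
      omega
    · -- `Y` is saturated
      have hsat : ∀ v ∈ B', v ∈ U → (v ∈ Y ↔ (Y ∩ U).Nonempty) := by
        intro v hv hvU
        constructor
        · intro hvY
          exact ⟨v, mem_inter.mpr ⟨hvY, hvU⟩⟩
        · intro hne
          by_contra hvY
          exact hYU ⟨hne, ⟨v, mem_sdiff.mpr ⟨mem_inter.mpr ⟨hv, hvU⟩, hvY⟩⟩⟩
      have himg : ∀ v ∈ B', (ρ v ∈ Y.image ρ ↔ v ∈ Y) := by
        intro v hv
        constructor
        · intro h1
          obtain ⟨y, hy, hyv⟩ := mem_image.mp h1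
          by_cases hvU : v ∈ U
          · by_cases hyU : y ∈ U
            · exact (hsat v hv hvU).mpr ⟨y, mem_inter.mpr ⟨hy, hyU⟩⟩
            · rw [hρU v hvU, hρn y hyU] at hyv
              exact absurd (hyv ▸ hu0) hyU
          · by_cases hyU : y ∈ U
            · rw [hρn v hvU, hρU y hyU] at hyv
              exact absurd (hyv ▸ hu0) hvU
            · rw [hρn v hvU, hρn y hyU] at hyv
              exact hyv ▸ hy
        · exact fun h1 => mem_image_of_mem ρ h1
      have h1 : Y.image ρ ⊆ B := by
        intro b hb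
        obtain ⟨y, hy, hyb⟩ := mem_image.mp hb
        rw [← hyb]
        exact ((hmemB' y).mp (hY hy)).2
      have h2 : Y.image ρ ≠ B := by
        intro h2
        apply hYne'
        apply Subset.antisymm hY
        intro v hv
        rw [← himg v hv, h2]
        exact ((hmemB' v).mp hv).2
      obtain ⟨e, he⟩ := hcon (Y.image ρ) h1 (hYne.image ρ) h2
      rw [Gph.mem_cut, Gph.mem_ins] at he
      obtain ⟨⟨heF, hsB, htB⟩, hcr⟩ := he
      have heF' : e ∈ G.F := (mem_filter.mp heF).1
      have hsB' : G.s e ∈ B' := (hmemB' _).mpr ⟨h.cub.sA e heF', hsB⟩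
      have htB' : G.t e ∈ B' := (hmemB' _).mpr ⟨h.cub.tA e heF', htB⟩
      refine ⟨e, ?_⟩
      rw [Gph.mem_cut, Gph.mem_ins]
      refine ⟨⟨heF', hsB', htB'⟩, ?_⟩
      have h3 := himg _ hsB'
      have h4 := himg _ htB'
      intro h5
      apply hcr
      show ρ (G.s e) ∈ Y.image ρ ↔ ρ (G.t e) ∈ Y.image ρ
      rw [h3, h4]
      exact h5
  have hall' : ∀ e ∈ M, e ∉ X → G.s e ∈ B' ∨ G.t e ∈ B' := by
    intro e he heX
    rcases hall e he heX with h1 | h1
    · left
      exact (hmemB' _).mpr ⟨h.cub.sA e (h.MF he), h1⟩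
    · right
      exact (hmemB' _).mpr ⟨h.cub.tA e (h.MF he), h1⟩
  by_cases hXU : (G.cut X U).Nonempty
  · -- the circuit passes through `u0`
    have hu0B : u0 ∉ B := by
      obtain ⟨e, he⟩ := hXU
      rw [Gph.mem_cut] at he
      have h1 := hXB e he.1
      by_cases hs : G.s e ∈ U
      · rw [hρU _ hs] at h1
        exact h1.1
      · have ht : G.t e ∈ U := by tauto
        rw [hρU _ ht] at h1
        exact h1.2
    have hUB' : ∀ v ∈ U, v ∉ B' := by
      intro v hv h1
      have := ((hmemB' v).mp h1).2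
      rw [hρU v hv] at this
      exact hu0B this
    -- the target vertex
    obtain ⟨t0, ht0, htM⟩ : ∃ t0 ∈ U, ∀ e ∈ M, ∀ w, (G.s e = w ∨ G.t e = w) → w ∈ U → w = t0 := by
      by_cases hne : (G.meet M U).Nonempty
      · obtain ⟨f, hf⟩ := hne
        have hf' := G.mem_meet.mp hf
        have hfi : ¬ (G.s f ∈ U ∧ G.t f ∈ U) := by
          intro h1
          have : f ∈ G.ins M U := by
            rw [Gph.mem_ins]; exact ⟨hf'.1, h1⟩
          rw [hi] at this
          simp at this
        have huniq : ∀ e ∈ M, (G.s e ∈ U ∨ G.t e ∈ U) → e = f := by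
          intro e he h1
          exact card_le_one.mp hm e (G.mem_meet.mpr ⟨he, h1⟩) f hf
        by_cases hs : G.s f ∈ U
        · refine ⟨G.s f, hs, ?_⟩
          rintro e he w (h1 | h1) hw
          · rw [← h1, huniq e he (Or.inl (h1 ▸ hw))]
          · have h2 := huniq e he (Or.inr (h1 ▸ hw))
            subst h2
            rw [← h1] at hw
            exact absurd ⟨hs, hw⟩ hfi
        · have ht : G.t f ∈ U := by tauto
          refine ⟨G.t f, ht, ?_⟩
          rintro e he w (h1 | h1) hw
          · have h2 := huniq e he (Or.inl (h1 ▸ hw))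
            subst h2
            rw [← h1] at hw
            exact absurd hw hs
          · rw [← h1, huniq e he (Or.inr (h1 ▸ hw))]
      · refine ⟨u0, hu0, ?_⟩
        rintro e he w (h1 | h1) hw
        · exact absurd ⟨e, G.mem_meet.mpr ⟨he, Or.inl (h1 ▸ hw)⟩⟩ hne
        · exact absurd ⟨e, G.mem_meet.mpr ⟨he, Or.inr (h1 ▸ hw)⟩⟩ hne
    obtain ⟨P, hP, hcircP, htP⟩ := Gph.route h.cub h.con hU h.rA hr hc hu0 ht0 hcirc hXU
    have hPM : ∀ e ∈ P, e ∉ M := by
      intro e he heM
      have h1 := (G.mem_ins.mp (hP he)).2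
      have : e ∈ G.ins M U := by
        rw [Gph.mem_ins]; exact ⟨heM, h1⟩
      rw [hi] at this
      simp at this
    refine ⟨X ∪ P, B', hcircP, filter_subset _ _, hrB', hconB', ?_, ?_, ?_, ?_⟩
    · rw [eq_empty_iff_forall_notMem]
      intro e he
      rw [Gph.mem_meet, mem_union] at he
      rcases he with ⟨h1 | h1, h2⟩
      · have h3 := hXB e h1
        rcases h2 with h2 | h2
        · exact h3.1 ((hmemB' _).mp h2).2
        · exact h3.2 ((hmemB' _).mp h2).2
      · have h3 := (G.mem_ins.mp (hP h1)).2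
        rcases h2 with h2 | h2
        · exact hUB' _ h3.1 h2
        · exact hUB' _ h3.2 h2
    · have h1 : (X ∪ P) ∩ M = X ∩ M := by
        ext e
        simp only [mem_inter, mem_union]
        constructor
        · rintro ⟨h1 | h1, h2⟩
          · exact ⟨h1, h2⟩
          · exact absurd h2 (hPM e h1)
        · rintro ⟨h1, h2⟩
          exact ⟨Or.inl h1, h2⟩
      rw [h1]
      exact hone
    · apply htwo.trans
      apply card_le_card
      intro e he
      rw [mem_filter] at he ⊢
      refine ⟨he.1, ?_⟩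
      have key : ∀ w, (G.s e = w ∨ G.t e = w) → ((G.push ρ).cut X {ρ w}).Nonempty →
          (G.cut (X ∪ P) {w}).Nonempty := by
        intro w hw h1
        by_cases hwU : w ∈ U
        · rw [htM e he.1 w hw hwU]
          exact htP
        · rw [hρn w hwU, Gph.cut_push, hpre2 w hwU] at h1
          exact h1.mono (G.cut_mono subset_union_left _)
      rcases he.2 with h1 | h1
      · exact Or.inl (key _ (Or.inl rfl) h1)
      · exact Or.inr (key _ (Or.inr rfl) h1)
    · intro e he heX
      exact hall' e he (fun h1 => heX (mem_union_left _ h1))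
  · -- the circuit avoids `U`
    rw [not_nonempty_iff_eq_empty] at hXU
    have hXout : ∀ e ∈ X, G.s e ∉ U ∧ G.t e ∉ U := by
      intro e he
      have h1 := hXin e he
      have h2 : e ∉ G.cut X U := by rw [hXU]; simp
      rw [Gph.mem_cut] at h2
      tauto
    have hXc : ∀ v ∈ U, ∀ Y ⊆ X, G.cut Y {v} = ∅ := by
      intro v hv Y hY
      rw [eq_empty_iff_forall_notMem]
      intro e he
      rw [Gph.mem_cut_singleton] at he
      have h1 := hXout e (hY he.1)
      rcases he.2 with h2 | h2
      · rw [h2.1] at h1; exact h1.1 hv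
      · rw [h2.2] at h1; exact h1.2 hv
    refine ⟨X, B', ⟨hXF, hcirc.ne, ?_, ?_⟩, filter_subset _ _, hrB', hconB', ?_, hone, ?_, hall'⟩
    · intro v
      by_cases hv : v ∈ U
      · rw [hXc v hv X (Subset.refl _)]; simp
      · have h1 := hcirc.ev v
        rw [Gph.cut_push, hpre2 v hv] at h1
        exact h1
    · intro Y hY hYev hYne
      apply hcirc.min Y hY _ hYne
      intro v
      rw [Gph.cut_push]
      by_cases hv : v ∈ U
      · by_cases hv0 : v = u0
        · rw [hv0, hpre1]
          exact hYev.cut U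
        · rw [hpre3 v hv hv0]; simp [Gph.cut]
      · rw [hpre2 v hv]
        exact hYev v
    · rw [eq_empty_iff_forall_notMem]
      intro e he
      rw [Gph.mem_meet] at he
      have h3 := hXB e he.1
      rcases he.2 with h2 | h2
      · exact h3.1 ((hmemB' _).mp h2).2
      · exact h3.2 ((hmemB' _).mp h2).2
    · apply htwo.trans
      apply card_le_card
      intro e he
      rw [mem_filter] at he ⊢
      refine ⟨he.1, ?_⟩
      have key : ∀ w, ((G.push ρ).cut X {ρ w}).Nonempty → (G.cut X {w}).Nonempty := by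
        intro w h1
        by_cases hwU : w ∈ U
        · rw [hρU w hwU, Gph.cut_push, hpre1, hXU] at h1
          simp at h1
        · rw [hρn w hwU, Gph.cut_push, hpre2 w hwU] at h1
          exact h1
      rcases he.2 with h1 | h1
      · exact Or.inl (key _ h1)
      · exact Or.inr (key _ h1)

end GLR
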